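import Pool.Agent.Results.MP_f7573e_al.NoUnitCoefficient

/-!
# Multilinear identities with a unit coefficient: the statement fails in every degree `d ≥ 5`

From a ring `R` we construct the ring `R ⊕ R#` (`R#` is `R` with a unit adjoined) with the product
`(r, m) (r', m') = (r r', r m')`.  It satisfies `f x₀` for every identity `f` of `R`, and the
coefficients of its multilinear identities of degree `d + 1` are coefficients of multilinear
identities of degree `d` of `R`.
-/

set_option autoImplicit false

namespace Pool.Agent.Results.MP_f7573e_al.AllDegrees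

open Pool.Agent.Results.MP_f7573e_al.NoUnitCoefficient

/-- The underlying set of the extension. -/
def Ext (R : Type) : Type := R × Unitization ℤ R

section Ext

variable {R : Type} [NonUnitalRing R]

noncomputable instance : AddCommGroup (Ext R) :=
  inferInstanceAs (AddCommGroup (R × Unitization ℤ R))

noncomputable instance : Mul (Ext R) := ⟨fun a b => (a.1 * b.1, (a.1 : Unitization ℤ R) * b.2)⟩

theorem mul_fst (a b : Ext R) : (a * b).1 = a.1 * b.1 := rfl
theorem mul_snd (a b : Ext R) : (a * b).2 = (a.1 : Unitization ℤ R) * b.2 := rfl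
theorem add_fst (a b : Ext R) : (a + b).1 = a.1 + b.1 := rfl
theorem add_snd (a b : Ext R) : (a + b).2 = a.2 + b.2 := rfl
theorem zero_fst : (0 : Ext R).1 = 0 := rfl
theorem zero_snd : (0 : Ext R).2 = 0 := rfl

noncomputable instance : NonUnitalRing (Ext R) :=
  { (inferInstance : AddCommGroup (Ext R)), (inferInstance : Mul (Ext R)) with
    left_distrib := fun a b c => Prod.ext (by simp [mul_fst, add_fst, mul_add])
      (by simp [mul_snd, add_snd, mul_add])
    right_distrib := fun a b c => Prod.ext (by simp [mul_fst, add_fst, add_mul])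
      (by simp [mul_snd, add_snd, add_fst, add_mul])
    zero_mul := fun a => Prod.ext (by simp [mul_fst, zero_fst])
      (by simp [mul_snd, zero_fst, zero_snd])
    mul_zero := fun a => Prod.ext (by simp [mul_fst, zero_fst])
      (by simp [mul_snd, zero_snd])
    mul_assoc := fun a b c => Prod.ext (by simp [mul_fst, mul_assoc])
      (by
        rw [mul_snd, mul_snd, mul_snd, mul_fst, Unitization.inr_mul]
        exact mul_assoc (a.1 : Unitization ℤ R) (b.1 : Unitization ℤ R) c.2) }

/-- first component, as an additive homomorphism -/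
noncomputable def fstHom : Ext R →+ R := AddMonoidHom.fst R (Unitization ℤ R)

/-- second component, as an additive homomorphism -/
noncomputable def sndHom : Ext R →+ Unitization ℤ R := AddMonoidHom.snd R (Unitization ℤ R)

/-- the inclusion of `R`, as an additive homomorphism -/
noncomputable def inrAdd : R →+ Unitization ℤ R where
  toFun r := (r : Unitization ℤ R)
  map_zero' := Unitization.inr_zero ℤ
  map_add' := Unitization.inr_add ℤ

theorem fstHom_apply (a : Ext R) : fstHom a = a.1 := rfl
theorem sndHom_apply (a : Ext R) : sndHom a = a.2 := rfl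

end Ext

/-! ### Values of words -/

section Words

variable {R : Type} [NonUnitalRing R]

theorem wordVal_append_single (r : ℕ → R) (w : List ℕ) (hw : w ≠ []) (i : ℕ) :
    wordVal r (w ++ [i]) = wordVal r w * r i := by
  induction w with
  | nil => exact absurd rfl hw
  | cons j l ih =>
    cases l with
    | nil => rfl
    | cons k l =>
      change r j * wordVal r ((k :: l) ++ [i]) = (r j * wordVal r (k :: l)) * r i
      rw [ih (by simp), mul_assoc]

theorem wordVal_congr {r r' : ℕ → R} (w : List ℕ) (h : ∀ j ∈ w, r j = r' j) :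
    wordVal r w = wordVal r' w := by
  induction w with
  | nil => rfl
  | cons j l ih =>
    cases l with
    | nil => exact h j (by simp)
    | cons k l =>
      change r j * wordVal r (k :: l) = r' j * wordVal r' (k :: l)
      rw [ih (fun j hj => h j (List.mem_cons_of_mem _ hj)), h j (by simp)]

theorem wordVal_map (r : ℕ → R) (s : ℕ → ℕ) (w : List ℕ) :
    wordVal r (w.map s) = wordVal (fun j => r (s j)) w := by
  induction w with
  | nil => rfl
  | cons j l ih =>
    cases l with
    | nil => rfl
    | cons k l =>
      change r (s j) * wordVal r ((k :: l).map s) = r (s j) * wordVal _ (k :: l)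
      rw [ih]

theorem wordVal_fst (ρ : ℕ → Ext R) (w : List ℕ) :
    (wordVal ρ w).1 = wordVal (fun j => (ρ j).1) w := by
  induction w with
  | nil => rfl
  | cons j l ih =>
    cases l with
    | nil => rfl
    | cons k l =>
      change (ρ j * wordVal ρ (k :: l)).1 = (ρ j).1 * wordVal _ (k :: l)
      rw [mul_fst, ih]

theorem polyVal_fst (ρ : ℕ → Ext R) (f : List ℕ →₀ ℤ) :
    (polyVal ρ f).1 = polyVal (fun j => (ρ j).1) f := by
  rw [polyVal, polyVal, ← fstHom_apply, Finsupp.sum, Finsupp.sum, map_sum]
  refine Finset.sum_congr rfl fun w _ => ?_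
  rw [map_zsmul, fstHom_apply, wordVal_fst]

end Words

/-! ### The identity of degree `d + 1` -/

theorem app_inj : Function.Injective (fun w : List ℕ => w ++ [0]) :=
  fun _ _ h => List.append_left_injective [0] h

/-- the polynomial `f x₀` -/
noncomputable def mulX (f : List ℕ →₀ ℤ) : List ℕ →₀ ℤ := f.mapDomain (fun w => w ++ [0])

theorem mulX_apply (f : List ℕ →₀ ℤ) (w : List ℕ) : mulX f (w ++ [0]) = f w :=
  Finsupp.mapDomain_apply app_inj f w

theorem mulX_ne {f : List ℕ →₀ ℤ} {w : List ℕ} (h : mulX f w ≠ 0) : ∃ u, w = u ++ [0] ∧ f u ≠ 0 := by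
  by_cases hw : w ∈ Set.range (fun w : List ℕ => w ++ [0])
  · obtain ⟨u, rfl⟩ := hw
    exact ⟨u, rfl, by rwa [← mulX_apply]⟩
  · exact absurd (Finsupp.mapDomain_of_notMem_range f w hw) h

theorem mulX_identity {R : Type} [NonUnitalRing R] {f : List ℕ →₀ ℤ} (h0 : f [] = 0)
    (hf : IsIdentity R f) : IsIdentity (Ext R) (mulX f) := by
  intro ρ
  have h1 : polyVal ρ (mulX f) = polyVal ρ f * ρ 0 := by
    rw [polyVal, mulX, Finsupp.sum_mapDomain_index (by simp) (fun _ _ _ => add_smul _ _ _)]
    rw [polyVal, Finsupp.sum, Finsupp.sum, Finset.sum_mul]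
    refine Finset.sum_congr rfl fun w hw => ?_
    have hne : w ≠ [] := by
      rintro rfl
      exact Finsupp.mem_support_iff.1 hw h0
    rw [wordVal_append_single ρ w hne, smul_mul_assoc]
  have h2 : (polyVal ρ f).1 = 0 := by
    rw [polyVal_fst]
    exact hf _
  rw [h1]
  exact Prod.ext (by rw [mul_fst, h2, zero_mul]; rfl) (by rw [mul_snd, h2]; simp [zero_snd])

/-! ### Multilinear identities of degree `d + 1` -/

theorem swap_lt {i d : ℕ} (hi : i < d + 1) (j : ℕ) : Equiv.swap i d j < d + 1 ↔ j < d + 1 := by
  rw [Equiv.swap_apply_def]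
  split_ifs with h1 h2
  · subst h1; omega
  · subst h2; omega
  · exact Iff.rfl

theorem perm_swap {i d : ℕ} (hi : i < d + 1) :
    ((List.range (d + 1)).map (Equiv.swap i d)).Perm (List.range (d + 1)) := by
  rw [List.perm_ext_iff_of_nodup
    (List.Nodup.map (Equiv.swap i d).injective List.nodup_range) List.nodup_range]
  intro j
  rw [List.mem_map, List.mem_range]
  constructor
  · rintro ⟨k, hk, rfl⟩
    rw [List.mem_range] at hk
    exact (swap_lt hi k).2 hk
  · intro hj
    exact ⟨Equiv.swap i d j, List.mem_range.2 ((swap_lt hi j).2 hj), Equiv.swap_apply_self _ _ _⟩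

theorem even_step {R : Type} [NonUnitalRing R] {d : ℕ} (hd : 1 ≤ d)
    (hR : ∀ g : List ℕ →₀ ℤ, Multilinear g d → IsIdentity R g → ∀ w, (2 : ℤ) ∣ g w)
    (g : List ℕ →₀ ℤ) (hg : Multilinear g (d + 1)) (hi : IsIdentity (Ext R) g) (w : List ℕ) :
    (2 : ℤ) ∣ g w := by
  classical
  by_cases hw : g w = 0
  · rw [hw]; exact dvd_zero _
  have hwp := hg w hw
  obtain ⟨v, i, rfl⟩ : ∃ v i, w = v ++ [i] := by
    rcases List.eq_nil_or_concat w with h | ⟨v, i, h⟩
    · rw [h] at hwp
      have := hwp.length_eq
      simp at this
    · exact ⟨v, i, by simpa using h⟩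
  have hid : i < d + 1 := List.mem_range.1 (hwp.mem_iff.1 (by simp))
  set σ := Equiv.swap i d with hσ
  have hσσ : ∀ j, σ (σ j) = j := fun j => Equiv.swap_apply_self _ _ _
  have hmm : ∀ u : List ℕ, (u.map σ).map σ = u := by
    intro u
    rw [List.map_map]
    conv_rhs => rw [← List.map_id u]
    exact List.map_congr_left fun j _ => hσσ j
  let e : List ℕ → List ℕ := fun u => u.map σ ++ [i]
  have he : Function.Injective e := by
    intro u u' h
    have h1 := List.append_left_injective [i] h
    have h2 := congrArg (List.map σ) h1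
    simpa only [hmm] using h2
  let G : List ℕ →₀ ℤ := g.comapDomain e he.injOn
  have hG : ∀ u, G u = g (e u) := fun u => Finsupp.comapDomain_apply _ _ _ _
  have hGm : Multilinear G d := by
    intro u hu
    rw [hG] at hu
    have h1 := hg _ hu
    have h2 : ((e u).map σ).Perm (List.range (d + 1)) := (h1.map σ).trans (perm_swap hid)
    have h3 : (e u).map σ = u ++ [d] := by
      simp only [e, List.map_append, hmm, List.map_cons, List.map_nil]
      rw [hσ, Equiv.swap_apply_left]
    rw [h3, List.range_succ] at h2
    exact (List.perm_append_right_iff [d]).1 h2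
  have hGi : IsIdentity R G := by
    intro r
    let ρ : ℕ → Ext R := fun j => if j = i then ((0 : R), (1 : Unitization ℤ R)) else (r (σ j), 0)
    have hρi : ρ i = ((0 : R), (1 : Unitization ℤ R)) := if_pos rfl
    have hρj : ∀ j, j ≠ i → ρ j = (r (σ j), 0) := fun j hj => if_neg hj
    have h1 : (polyVal ρ g).2 = 0 := by rw [hi ρ]; rfl
    rw [polyVal, ← sndHom_apply, Finsupp.sum, map_sum] at h1
    have h2 : ∑ w ∈ g.support, sndHom (g w • wordVal ρ w) =
        ∑ w ∈ G.support.image e, sndHom (g w • wordVal ρ w) := by
      symm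
      apply Finset.sum_subset
      · intro w hw'
        obtain ⟨u, hu, rfl⟩ := Finset.mem_image.1 hw'
        rw [Finsupp.mem_support_iff, hG] at hu
        exact Finsupp.mem_support_iff.2 hu
      · intro w hw' hn
        have hw0 := Finsupp.mem_support_iff.1 hw'
        have hp := hg w hw0
        obtain ⟨v', j, rfl⟩ : ∃ v j, w = v ++ [j] := by
          rcases List.eq_nil_or_concat w with h | ⟨v, i, h⟩
          · rw [h] at hp
            have := hp.length_eq
            simp at this
          · exact ⟨v, i, by simpa using h⟩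
        have hv' : v' ≠ [] := by
          rintro rfl
          have := hp.length_eq
          simp at this
          omega
        have hji : j ≠ i := by
          rintro rfl
          apply hn
          refine Finset.mem_image.2 ⟨v'.map σ, ?_, ?_⟩
          · rw [Finsupp.mem_support_iff, hG]
            simp only [e, hmm]
            exact hw0
          · simp only [e, hmm]
        rw [wordVal_append_single ρ v' hv', map_zsmul, sndHom_apply, mul_snd, hρj j hji, mul_zero,
          smul_zero]
    rw [h2, Finset.sum_image (fun _ _ _ _ h => he h)] at h1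
    have h3 : (((polyVal r G : R)) : Unitization ℤ R) = 0 := by
      rw [← h1, polyVal, Finsupp.sum]
      change inrAdd _ = _
      rw [map_sum]
      refine Finset.sum_congr rfl fun u hu => ?_
      rw [Finsupp.mem_support_iff] at hu
      have hup := hGm u hu
      have hune : u.map σ ≠ [] := by
        intro h
        have h4 := hup.length_eq
        rw [List.map_eq_nil_iff] at h
        rw [h] at h4
        simp at h4
        omega
      have hnd : (e u).Nodup := by
        rw [hG] at hu
        exact (hg _ hu).nodup_iff.2 List.nodup_range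
      have hnot : i ∉ u.map σ := by
        intro hmem
        have := List.disjoint_of_nodup_append hnd hmem
        simp at this
      rw [map_zsmul, map_zsmul, sndHom_apply, hG]
      simp only [e]
      rw [wordVal_append_single ρ _ hune, mul_snd, hρi, mul_one, wordVal_fst]
      have h5 : wordVal (fun j => (ρ j).1) (u.map σ) = wordVal r u := by
        rw [wordVal_congr (r' := fun j => r (σ j)) (u.map σ) (fun j hj => by
          rw [hρj j (fun h => hnot (h ▸ hj))]), wordVal_map]
        simp only [hσσ]
      rw [h5]
      rfl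
    exact Unitization.inr_injective (by rw [h3]; rfl)
  have := hR G hGm hGi (v.map σ)
  rw [hG] at this
  simpa only [e, hmm] using this

/-- **Result.**  For every degree `d ≥ 5` there is an associative ring which satisfies an identity
of degree `d` with coprime coefficients, whereas all coefficients of all multilinear identities of
degree `d` satisfied by the ring are even; in particular none of them is `1`. -/
theorem result : ∀ d : ℕ, 5 ≤ d → ∃ (R : Type) (_ : NonUnitalRing R),
    (∃ f : List ℕ →₀ ℤ, f [] = 0 ∧ HasDegree f d ∧ CoprimeCoeffs f ∧ IsIdentity R f) ∧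
    ∀ g : List ℕ →₀ ℤ, Multilinear g d → IsIdentity R g → ∀ w, (2 : ℤ) ∣ g w ∧ g w ≠ 1 := by
  have key : ∀ d : ℕ, 5 ≤ d → ∃ (R : Type) (_ : NonUnitalRing R),
      (∃ f : List ℕ →₀ ℤ, f [] = 0 ∧ HasDegree f d ∧ CoprimeCoeffs f ∧ IsIdentity R f) ∧
      ∀ g : List ℕ →₀ ℤ, Multilinear g d → IsIdentity R g → ∀ w, (2 : ℤ) ∣ g w := by
    intro d hd
    induction d, hd using Nat.le_induction with
    | base =>
      refine ⟨Rg, inferInstance, ⟨ofList FL, ?_, ⟨?_, ?_⟩, ?_, identity_holds⟩,
        fun g hg hi w => even_coeff g hg hi w⟩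
      · rw [ofList_apply]; decide +kernel
      · intro w hw
        obtain ⟨t, ht, rfl⟩ := ofList_ne _ _ hw
        have : ∀ t ∈ FL, t.1.length ≤ 5 := by decide +kernel
        exact this t ht
      · refine ⟨[0, 0, 1, 2, 3], ?_, rfl⟩
        rw [ofList_apply]; decide +kernel
      · intro n hn
        have h1 := hn [0, 1, 2, 3]
        have h2 : ofList FL [0, 1, 2, 3] = 1 := by rw [ofList_apply]; decide +kernel
        rw [h2] at h1
        exact isUnit_of_dvd_one h1
    | succ d hd ih =>
      obtain ⟨R, hR, ⟨f, h0, hdeg, hco, hid⟩, hev⟩ := ih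
      refine ⟨Ext R, inferInstance, ⟨mulX f, ?_, ⟨?_, ?_⟩, ?_, mulX_identity h0 hid⟩,
        even_step (by omega) hev⟩
      · by_contra h
        obtain ⟨u, hu, _⟩ := mulX_ne h
        simp at hu
      · intro w hw
        obtain ⟨u, rfl, hu⟩ := mulX_ne hw
        have := hdeg.1 u hu
        simp
        omega
      · obtain ⟨w, hw, hl⟩ := hdeg.2
        exact ⟨w ++ [0], by rwa [mulX_apply], by simp [hl]⟩
      · intro n hn
        refine hco n fun w => ?_
        have := hn (w ++ [0])
        rwa [mulX_apply] at this
  intro d hd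
  obtain ⟨R, hR, h1, h2⟩ := key d hd
  refine ⟨R, hR, h1, fun g hg hi w => ⟨h2 g hg hi w, fun h => ?_⟩⟩
  have := h2 g hg hi w
  rw [h] at this
  norm_num at this

end Pool.Agent.Results.MP_f7573e_al.AllDegrees
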